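import Mathlib

/-!
# The directed Finsler filling area inequality fails on the Moebius band

The closed Moebius band `M` is the quotient of the strip `[-1,1] × ℝ` (coordinates `(s,t)`) by the
group generated by the glide reflection `(s,t) ↦ (-s,t+1)`.  Its boundary `C` is the image of the
two lines `|s| = 1`; it is one circle, parametrised by `t ↦ (1,t)`, `0 ≤ t ≤ 2`.
-/

open Set MeasureTheory
open scoped ENNReal

namespace Pool.Agent.Results.MP_1fb3ec_gt.MobiusBandCounterexample

noncomputable section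

/-- The closed strip `[-1,1] × ℝ`, the universal cover of the closed Moebius band. -/
def strip : Set (ℝ × ℝ) := {p | |p.1| ≤ 1}

/-- The two boundary lines of the strip; they cover the boundary circle `C` of the band. -/
def edge : Set (ℝ × ℝ) := {p | |p.1| = 1}

/-- The glide reflection `(s,t) ↦ (-s,t+1)`, generating the deck group. -/
def deck (p : ℝ × ℝ) : ℝ × ℝ := (-p.1, p.2 + 1)

/-- Two points of the plane represent the same point of the Moebius band: they lie in one orbit of
the group generated by `deck`. -/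
def SamePoint (p q : ℝ × ℝ) : Prop := ∃ n : ℕ, q = deck^[n] p ∨ p = deck^[n] q

/-- `F` is (the lift to the strip of) a directed Finsler semimetric on the Moebius band: a function
of a point `p` of the strip and a tangent vector `v`, continuous, nonnegative, positively
homogeneous and convex in `v`, and invariant under the differential `(v₁,v₂) ↦ (-v₁,v₂)` of the
deck transformation. -/
structure IsDirectedFinsler (F : ℝ × ℝ → ℝ × ℝ → ℝ) : Prop where
  continuousOn : ContinuousOn (fun z : (ℝ × ℝ) × (ℝ × ℝ) => F z.1 z.2) (strip ×ˢ univ)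
  nonneg : ∀ p ∈ strip, ∀ v, 0 ≤ F p v
  homogeneous : ∀ p ∈ strip, ∀ v, ∀ c : ℝ, 0 ≤ c → F p (c • v) = c * F p v
  convex : ∀ p ∈ strip, ConvexOn ℝ univ (F p)
  invariant : ∀ p ∈ strip, ∀ v, F (deck p) (-v.1, v.2) = F p v

/-- `γ : [0,1] → A` is a continuous, piecewise `C¹` path. -/
structure IsPath (A : Set (ℝ × ℝ)) (γ : ℝ → ℝ × ℝ) : Prop where
  continuousOn : ContinuousOn γ (Icc 0 1)
  mem : ∀ t ∈ Icc (0 : ℝ) 1, γ t ∈ A
  pieces : ∃ (n : ℕ) (τ : ℕ → ℝ), τ 0 = 0 ∧ τ n = 1 ∧ (∀ i < n, τ i < τ (i + 1)) ∧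
    ∀ i < n, ContDiffOn ℝ 1 γ (Icc (τ i) (τ (i + 1)))

/-- The length `∫₀¹ F(γ(t), γ'(t)) dt`. -/
def pathLength (F : ℝ × ℝ → ℝ × ℝ → ℝ) (γ : ℝ → ℝ × ℝ) : ℝ≥0∞ :=
  ∫⁻ t in Icc (0 : ℝ) 1, ENNReal.ofReal (F (γ t) (deriv γ t))

/-- The directed distance, inside the image of `A` in the Moebius band, from the point represented
by `x` to the point represented by `y`: the infimum of the lengths of piecewise `C¹` paths, each
path being given by a lift to the strip. -/
def dirDist (F : ℝ × ℝ → ℝ × ℝ → ℝ) (A : Set (ℝ × ℝ)) (x y : ℝ × ℝ) : ℝ≥0∞ :=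
  ⨅ (γ : ℝ → ℝ × ℝ) (_ : IsPath A γ) (_ : SamePoint x (γ 0)) (_ : SamePoint y (γ 1)),
    pathLength F γ

/-- The boundary circle `C` run through once in the direction of increasing `t`. -/
def circlePlus (u : ℝ) : ℝ × ℝ := (1, 2 * u)

/-- The boundary circle `C` run through once in the direction of decreasing `t`. -/
def circleMinus (u : ℝ) : ℝ × ℝ := (1, -(2 * u))

/-- The unit codisk `{φ : φ(v) ≤ F(p,v) for all v}` at `p`, in the dual coordinates. -/
def codisk (F : ℝ × ℝ → ℝ × ℝ → ℝ) (p : ℝ × ℝ) : Set (ℝ × ℝ) :=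
  {φ | ∀ v : ℝ × ℝ, φ.1 * v.1 + φ.2 * v.2 ≤ F p v}

/-- The unnormalised Holmes-Thompson area of the Moebius band: the integral of the Lebesgue area of
the unit codisk over the fundamental domain `[-1,1] × [0,1]`. -/
def htArea (F : ℝ × ℝ → ℝ × ℝ → ℝ) : ℝ≥0∞ :=
  ∫⁻ p in Icc (-1 : ℝ) 1 ×ˢ Icc (0 : ℝ) 1, volume (codisk F p)

/-- The Moebius band with the semimetric `F` fills its boundary circle `C`, with the induced
semimetric, without shortcuts: for boundary points the distance in the band is at least the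
distance along `C`. -/
def FillsWithoutShortcuts (F : ℝ × ℝ → ℝ × ℝ → ℝ) : Prop :=
  ∀ x ∈ edge, ∀ y ∈ edge, dirDist F edge x y ≤ dirDist F strip x y

/-! ### The metric -/

/-- The directed norm `max (a/4 |s| + a/2 t) (-b/2 t)`. -/
def nrm (a b : ℝ) (v : ℝ × ℝ) : ℝ := max (a / 4 * |v.1| + a / 2 * v.2) (-(b / 2) * v.2)

lemma nrm_nonneg {a b : ℝ} (ha : 0 ≤ a) (hb : 0 ≤ b) (v : ℝ × ℝ) : 0 ≤ nrm a b v := by
  unfold nrm
  rcases le_total 0 v.2 with h | h
  · exact le_max_of_le_left (by positivity)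
  · exact le_max_of_le_right (by nlinarith)

lemma nrm_smul {a b : ℝ} (v : ℝ × ℝ) {c : ℝ} (hc : 0 ≤ c) :
    nrm a b (c • v) = c * nrm a b v := by
  unfold nrm
  rw [mul_max_of_nonneg _ _ hc]
  simp only [Prod.smul_fst, Prod.smul_snd, smul_eq_mul, abs_mul, abs_of_nonneg hc]
  congr 1 <;> ring

lemma nrm_continuous (a b : ℝ) : Continuous (nrm a b) := by
  unfold nrm
  fun_prop

lemma nrm_convex {a b : ℝ} (ha : 0 ≤ a) : ConvexOn ℝ univ (nrm a b) := by
  refine ⟨convex_univ, ?_⟩
  intro x _ y _ μ ν hμ hν hμν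
  simp only [nrm, Prod.smul_fst, Prod.smul_snd, smul_eq_mul, Prod.fst_add, Prod.snd_add]
  apply max_le
  · have h1 := le_max_left (a / 4 * |x.1| + a / 2 * x.2) (-(b / 2) * x.2)
    have h2 := le_max_left (a / 4 * |y.1| + a / 2 * y.2) (-(b / 2) * y.2)
    have h3 : |μ * x.1 + ν * y.1| ≤ μ * |x.1| + ν * |y.1| := by
      refine (abs_add_le _ _).trans ?_
      rw [abs_mul, abs_mul, abs_of_nonneg hμ, abs_of_nonneg hν]
    have h4 := mul_le_mul_of_nonneg_left h1 hμ
    have h5 := mul_le_mul_of_nonneg_left h2 hν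
    nlinarith
  · have h1 := le_max_right (a / 4 * |x.1| + a / 2 * x.2) (-(b / 2) * x.2)
    have h2 := le_max_right (a / 4 * |y.1| + a / 2 * y.2) (-(b / 2) * y.2)
    have h4 := mul_le_mul_of_nonneg_left h1 hμ
    have h5 := mul_le_mul_of_nonneg_left h2 hν
    nlinarith

/-! ### Lengths -/

lemma intervalIntegrable_deriv_piece {γ : ℝ → ℝ × ℝ} {x y : ℝ} (h : ContDiffOn ℝ 1 γ (Icc x y))
    (hxy : x ≤ y) : IntervalIntegrable (deriv γ) volume x y := by
  have h1 : ContinuousOn (derivWithin γ (Icc x y)) (Icc x y) ∨ x = y := by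
    rcases hxy.eq_or_lt with h' | h'
    · exact Or.inr h'
    · exact Or.inl (h.continuousOn_derivWithin (uniqueDiffOn_Icc h') le_rfl)
  rcases h1 with h1 | h1
  · rw [← uIcc_of_le hxy] at h1
    have h2 := h1.intervalIntegrable (μ := volume)
    refine h2.congr_ae ?_
    rw [uIoc_of_le hxy]
    have h3 : ∀ᵐ t ∂(volume.restrict (Ioc x y)), t ≠ y := by
      have := (measure_singleton y : (volume : Measure ℝ) {y} = 0)
      exact ae_restrict_of_ae (compl_mem_ae_iff.mpr this)
    filter_upwards [ae_restrict_mem measurableSet_Ioc, h3] with t ht hty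
    have : Icc x y ∈ nhds t := Icc_mem_nhds ht.1 (lt_of_le_of_ne ht.2 hty)
    rw [uIcc_of_le hxy]
    exact derivWithin_of_mem_nhds this
  · subst h1
    exact IntervalIntegrable.refl

lemma path_deriv {A : Set (ℝ × ℝ)} {γ : ℝ → ℝ × ℝ} (h : IsPath A γ) :
    IntervalIntegrable (deriv γ) volume 0 1 ∧ ∫ t in (0 : ℝ)..1, deriv γ t = γ 1 - γ 0 := by
  obtain ⟨n, τ, h0, h1, hlt, hc⟩ := h.pieces
  have hint : ∀ i < n, IntervalIntegrable (deriv γ) volume (τ i) (τ (i + 1)) := fun i hi =>
    intervalIntegrable_deriv_piece (hc i hi) (hlt i hi).le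
  refine ⟨?_, ?_⟩
  · have := IntervalIntegrable.trans_iterate hint
    rwa [h0, h1] at this
  · have := intervalIntegral.sum_integral_adjacent_intervals hint
    rw [h0, h1] at this
    rw [← this]
    have h2 : ∀ i ∈ Finset.range n, ∫ t in (τ i)..(τ (i + 1)), deriv γ t =
        γ (τ (i + 1)) - γ (τ i) := fun i hi =>
      intervalIntegral.integral_deriv_of_contDiffOn_Icc (hc i (Finset.mem_range.1 hi))
        (hlt i (Finset.mem_range.1 hi)).le
    rw [Finset.sum_congr rfl h2, Finset.sum_range_sub (fun i => γ (τ i)), h0, h1]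

lemma ofReal_integral_le {f : ℝ → ℝ} (hf : IntervalIntegrable f volume 0 1) :
    ENNReal.ofReal (∫ t in (0 : ℝ)..1, f t) ≤ ∫⁻ t in Icc (0 : ℝ) 1, ENNReal.ofReal (f t) := by
  rw [intervalIntegral.integral_of_le zero_le_one, ← integral_Icc_eq_integral_Ioc]
  have hi : IntegrableOn f (Icc 0 1) volume := by
    rw [integrableOn_Icc_iff_integrableOn_Ioc]
    exact (intervalIntegrable_iff_integrableOn_Ioc_of_le zero_le_one).1 hf
  calc ENNReal.ofReal (∫ t in Icc (0 : ℝ) 1, f t)
      ≤ ENNReal.ofReal (∫ t in Icc (0 : ℝ) 1, max (f t) 0) := by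
        apply ENNReal.ofReal_le_ofReal
        exact integral_mono hi hi.pos_part (fun t => le_max_left _ _)
    _ = ∫⁻ t in Icc (0 : ℝ) 1, ENNReal.ofReal (max (f t) 0) :=
        ofReal_integral_eq_lintegral_ofReal hi.pos_part
          (Filter.Eventually.of_forall fun t => le_max_right _ _)
    _ = ∫⁻ t in Icc (0 : ℝ) 1, ENNReal.ofReal (f t) := by
        congr 1
        ext t
        rw [ENNReal.ofReal_max, ENNReal.ofReal_zero]
        simp

/-- The length of a path is at least the value of a linear functional below the norm. -/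
lemma length_ge_linear {A : Set (ℝ × ℝ)} {γ : ℝ → ℝ × ℝ} (h : IsPath A γ)
    {F : ℝ × ℝ → ℝ × ℝ → ℝ} {p q : ℝ} (hF : ∀ x v, p * v.1 + q * v.2 ≤ F x v) :
    ENNReal.ofReal (p * (γ 1 - γ 0).1 + q * (γ 1 - γ 0).2) ≤ pathLength F γ := by
  obtain ⟨hi, he⟩ := path_deriv h
  let L : ℝ × ℝ →L[ℝ] ℝ :=
    p • ContinuousLinearMap.fst ℝ ℝ ℝ + q • ContinuousLinearMap.snd ℝ ℝ ℝ
  have hL : ∀ v, L v = p * v.1 + q * v.2 := fun v => by simp [L]
  have h1 : ∫ t in (0 : ℝ)..1, L (deriv γ t) = L (γ 1 - γ 0) := by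
    rw [← he]
    exact L.intervalIntegral_comp_comm hi
  have h2 : IntervalIntegrable (fun t => L (deriv γ t)) volume 0 1 :=
    ⟨L.integrable_comp hi.1, L.integrable_comp hi.2⟩
  calc ENNReal.ofReal (p * (γ 1 - γ 0).1 + q * (γ 1 - γ 0).2)
      = ENNReal.ofReal (∫ t in (0 : ℝ)..1, L (deriv γ t)) := by rw [h1, hL]
    _ ≤ ∫⁻ t in Icc (0 : ℝ) 1, ENNReal.ofReal (L (deriv γ t)) := ofReal_integral_le h2
    _ ≤ pathLength F γ := by
        apply lintegral_mono
        intro t
        apply ENNReal.ofReal_le_ofReal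
        rw [hL]
        exact hF _ _

lemma isPath_segment {A : Set (ℝ × ℝ)} {x v : ℝ × ℝ}
    (h : ∀ t ∈ Icc (0 : ℝ) 1, x + t • v ∈ A) : IsPath A (fun t => x + t • v) where
  continuousOn := by fun_prop
  mem := h
  pieces := ⟨1, fun i => i, by simp, by simp, fun i hi => by simp, fun i _ => by
    apply ContDiff.contDiffOn
    fun_prop⟩

lemma pathLength_segment {a b : ℝ} (x v : ℝ × ℝ) :
    pathLength (fun _ w => nrm a b w) (fun t => x + t • v) = ENNReal.ofReal (nrm a b v) := by
  have h : ∀ t : ℝ, deriv (fun t : ℝ => x + t • v) t = v := fun t => by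
    rw [deriv_const_add]
    have := ((hasDerivAt_id t).smul_const v).deriv
    simpa using this
  simp only [pathLength, h, setLIntegral_const, Real.volume_Icc]
  simp

/-! ### No shortcuts -/

lemma samePoint_refl (p : ℝ × ℝ) : SamePoint p p := ⟨0, Or.inl rfl⟩

lemma deck_iterate (n : ℕ) (p : ℝ × ℝ) : deck^[n] p = ((-1) ^ n * p.1, p.2 + n) := by
  induction n with
  | zero => simp
  | succ n ih =>
    rw [Function.iterate_succ_apply', ih]
    simp only [deck, pow_succ]
    ext <;> push_cast <;> ring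

lemma samePoint_iff (p q : ℝ × ℝ) :
    SamePoint p q ↔ ∃ k : ℤ, q = ((-1) ^ k * p.1, p.2 + k) := by
  have hsq : ∀ n : ℕ, ((-1 : ℝ)) ^ n * (-1) ^ n = 1 := fun n => by
    rw [← mul_pow]; simp
  constructor
  · rintro ⟨n, h | h⟩
    · exact ⟨n, by rw [h, deck_iterate]; simp⟩
    · refine ⟨-n, ?_⟩
      rw [h, deck_iterate]
      ext
      · simp only [zpow_neg, zpow_natCast]
        have : ((-1 : ℝ) ^ n)⁻¹ = (-1) ^ n := by
          rw [← inv_pow]; norm_num
        rw [this, ← mul_assoc, hsq, one_mul]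
      · simp
  · rintro ⟨k, h⟩
    obtain ⟨n, rfl | rfl⟩ := k.eq_nat_or_neg
    · exact ⟨n, Or.inl (by rw [h, deck_iterate]; simp)⟩
    · refine ⟨n, Or.inr ?_⟩
      rw [h, deck_iterate]
      ext
      · simp only [zpow_neg, zpow_natCast]
        have : ((-1 : ℝ) ^ n)⁻¹ = (-1) ^ n := by
          rw [← inv_pow]; norm_num
        rw [this, ← mul_assoc, hsq, one_mul]
      · simp

lemma samePoint_trans {p q r : ℝ × ℝ} (h₁ : SamePoint p q) (h₂ : SamePoint q r) :
    SamePoint p r := by
  rw [samePoint_iff] at *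
  obtain ⟨k, rfl⟩ := h₁
  obtain ⟨l, rfl⟩ := h₂
  refine ⟨k + l, ?_⟩
  ext
  · simp only
    rw [zpow_add₀ (by norm_num)]
    ring
  · push_cast
    ring

lemma samePoint_deck (p : ℝ × ℝ) : SamePoint p (deck p) := ⟨1, Or.inl rfl⟩

theorem fillsWithoutShortcuts {a b : ℝ} (ha : 0 < a) (hb : 0 < b) :
    FillsWithoutShortcuts (fun _ v => nrm a b v) := by
  intro x hx y hy
  unfold dirDist
  refine le_iInf fun γ => le_iInf fun hγ => le_iInf fun hx0 => le_iInf fun hy1 => ?_
  -- endpoints of the lift lie on the edge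
  have hedge : ∀ {p q : ℝ × ℝ}, p ∈ edge → SamePoint p q → q ∈ edge := by
    intro p q hp hpq
    rw [samePoint_iff] at hpq
    obtain ⟨k, rfl⟩ := hpq
    have : |(-1 : ℝ) ^ k| = 1 := by rw [abs_zpow]; simp
    simpa [edge, abs_mul, this] using hp
  have e0 : |(γ 0).1| = 1 := hedge hx hx0
  have e1 : |(γ 1).1| = 1 := hedge hy hy1
  set Δ : ℝ := (γ 1).2 - (γ 0).2 with hΔ
  -- lower bounds for the length of `γ`
  have hlow1 : ∀ σ : ℝ, |σ| = 1 →
      ENNReal.ofReal (a / 4 * (σ * ((γ 1).1 - (γ 0).1)) + a / 2 * Δ) ≤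
        pathLength (fun _ v => nrm a b v) γ := by
    intro σ hσ
    have := length_ge_linear (F := fun _ v => nrm a b v) hγ (p := a / 4 * σ) (q := a / 2)
      (fun _ v => by
        refine le_trans ?_ (le_max_left _ _)
        have h1 : σ * v.1 ≤ |v.1| := by
          calc σ * v.1 ≤ |σ * v.1| := le_abs_self _
            _ = |v.1| := by rw [abs_mul, hσ, one_mul]
        nlinarith)
    refine le_trans (ENNReal.ofReal_le_ofReal (le_of_eq ?_)) this
    simp only [Prod.fst_sub, Prod.snd_sub, hΔ]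
    ring
  have hlow2 : ENNReal.ofReal (-(b / 2) * Δ) ≤ pathLength (fun _ v => nrm a b v) γ := by
    have := length_ge_linear (F := fun _ v => nrm a b v) hγ (p := 0) (q := -(b / 2))
      (fun _ v => by
        refine le_trans (le_of_eq ?_) (le_max_right _ _)
        ring)
    refine le_trans (ENNReal.ofReal_le_ofReal (le_of_eq ?_)) this
    simp only [Prod.snd_sub, hΔ]
    ring
  -- a competitor along the edge starting at `γ 0` with displacement `d`
  have hcomp : ∀ d : ℝ, SamePoint y ((γ 0).1, (γ 0).2 + d) →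
      (⨅ (γ' : ℝ → ℝ × ℝ) (_ : IsPath edge γ') (_ : SamePoint x (γ' 0))
        (_ : SamePoint y (γ' 1)), pathLength (fun _ v => nrm a b v) γ') ≤
        ENNReal.ofReal (nrm a b (0, d)) := by
    intro d hd
    have hp : IsPath edge (fun t => γ 0 + t • ((0 : ℝ), d)) :=
      isPath_segment fun t _ => by simpa [edge] using e0
    refine (iInf_le _ (fun t => γ 0 + t • ((0 : ℝ), d))).trans ?_
    refine (iInf_le _ hp).trans ?_
    refine (iInf_le _ (by simpa using hx0)).trans ?_
    refine (iInf_le _ ?_).trans ?_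
    · have : γ 0 + (1 : ℝ) • ((0 : ℝ), d) = ((γ 0).1, (γ 0).2 + d) := by
        ext <;> simp
      change SamePoint y (γ 0 + (1 : ℝ) • ((0 : ℝ), d))
      rw [this]
      exact hd
    · rw [pathLength_segment]
  by_cases hs : (γ 1).1 = (γ 0).1
  · -- no crossing
    have h1 : ((γ 0).1, (γ 0).2 + Δ) = γ 1 := by
      ext
      · exact hs.symm
      · simp [hΔ]
    refine (hcomp Δ (h1 ▸ hy1)).trans ?_
    have h2 := hlow1 1 (by simp)
    rw [hs] at h2
    simp only [sub_self, mul_zero, zero_add] at h2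
    unfold nrm
    simp only [abs_zero, mul_zero, zero_add]
    rw [ENNReal.ofReal_max]
    exact max_le h2 hlow2
  · -- crossing: go along the edge by `Δ + 1`
    have hneg : (γ 1).1 = -(γ 0).1 := by
      rcases abs_eq_abs.1 (e1.trans e0.symm) with h | h
      · exact absurd h hs
      · exact h
    have h1 : ((γ 0).1, (γ 0).2 + (Δ + 1)) = deck (γ 1) := by
      ext
      · simp [deck, hneg]
      · simp only [deck, hΔ]
        ring
    have h2 : SamePoint y ((γ 0).1, (γ 0).2 + (Δ + 1)) := by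
      rw [h1]
      exact samePoint_trans hy1 (samePoint_deck _)
    refine (hcomp (Δ + 1) h2).trans ?_
    have hσ : ∃ σ : ℝ, |σ| = 1 ∧ σ * ((γ 1).1 - (γ 0).1) = 2 := by
      rcases (abs_eq (by norm_num : (0 : ℝ) ≤ 1)).1 e0 with h | h
      · exact ⟨-1, by simp, by rw [hneg, h]; norm_num⟩
      · exact ⟨1, by simp, by rw [hneg, h]; norm_num⟩
    obtain ⟨σ, hσ1, hσ2⟩ := hσ
    have h3 := hlow1 σ hσ1
    rw [hσ2] at h3
    unfold nrm
    simp only [abs_zero, mul_zero, zero_add]
    rw [ENNReal.ofReal_max]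
    apply max_le
    · refine le_trans (ENNReal.ofReal_le_ofReal (le_of_eq ?_)) h3
      ring
    · refine le_trans (ENNReal.ofReal_le_ofReal ?_) hlow2
      nlinarith

/-! ### The area -/

lemma mem_codisk_iff {a b : ℝ} (ha : 0 < a) (hb : 0 < b) (p φ : ℝ × ℝ) :
    φ ∈ codisk (fun _ v => nrm a b v) p ↔
      φ.2 ∈ Icc (-(b / 2)) (a / 2) ∧ |φ.1| ≤ a / (2 * (a + b)) * (φ.2 + b / 2) := by
  have hab : 0 < a + b := by linarith
  constructor
  · intro h
    have h1 := h (0, 1)
    have h2 := h (0, -1)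
    simp only [nrm, abs_zero, mul_zero, zero_add, mul_one, mul_neg, neg_neg] at h1 h2
    have h1' : φ.2 ≤ a / 2 := by
      rcases le_max_iff.1 h1 with h | h
      · exact h
      · linarith
    have h2' : -(b / 2) ≤ φ.2 := by
      rcases le_max_iff.1 h2 with h | h
      · linarith
      · linarith
    refine ⟨⟨h2', h1'⟩, ?_⟩
    have h3 : ∀ σ : ℝ, |σ| = 1 → σ * φ.1 ≤ a / (2 * (a + b)) * (φ.2 + b / 2) := by
      intro σ hσ
      have h4 := h (σ * (2 * (a + b)), -a)
      simp only [nrm, abs_mul, hσ, one_mul, abs_of_pos (by norm_num : (0 : ℝ) < 2),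
        abs_of_pos hab] at h4
      have h5 : a / 4 * (2 * (a + b)) + a / 2 * -a = a * b / 2 := by ring
      have h6 : -(b / 2) * -a = a * b / 2 := by ring
      rw [h5, h6, max_self] at h4
      rw [div_mul_eq_mul_div, le_div_iff₀ (by positivity)]
      nlinarith
    rw [abs_le]
    constructor
    · have := h3 (-1) (by simp)
      linarith
    · have := h3 1 (by simp)
      linarith
  · rintro ⟨⟨h1, h2⟩, h3⟩ v
    -- `φ` is a convex combination of the vertices `(c, a/2)`, `(0,-b/2)` with `|c| ≤ a/4`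
    set μ : ℝ := (φ.2 + b / 2) / ((a + b) / 2) with hμ
    have hμ0 : 0 ≤ μ := div_nonneg (by linarith) (by linarith)
    have hμ1 : μ ≤ 1 := by
      rw [hμ, div_le_one (by linarith)]
      linarith
    have hφ2 : φ.2 = μ * (a / 2) + (1 - μ) * (-(b / 2)) := by
      have : μ * ((a + b) / 2) = φ.2 + b / 2 := by
        rw [hμ, div_mul_cancel₀]
        positivity
      linarith
    have hφ1 : |φ.1| ≤ μ * (a / 4) := by
      refine h3.trans (le_of_eq ?_)
      rw [hμ]
      field_simp
      ring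
    have h4 : φ.1 * v.1 ≤ μ * (a / 4) * |v.1| := by
      calc φ.1 * v.1 ≤ |φ.1 * v.1| := le_abs_self _
        _ = |φ.1| * |v.1| := abs_mul _ _
        _ ≤ μ * (a / 4) * |v.1| := mul_le_mul_of_nonneg_right hφ1 (abs_nonneg _)
    have h5 := mul_le_mul_of_nonneg_left
      (le_max_left (a / 4 * |v.1| + a / 2 * v.2) (-(b / 2) * v.2)) hμ0
    have h6 := mul_le_mul_of_nonneg_left
      (le_max_right (a / 4 * |v.1| + a / 2 * v.2) (-(b / 2) * v.2)) (sub_nonneg.2 hμ1)
    change _ ≤ nrm a b v
    unfold nrm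
    calc φ.1 * v.1 + φ.2 * v.2
        ≤ μ * (a / 4) * |v.1| + (μ * (a / 2) + (1 - μ) * (-(b / 2))) * v.2 := by
          rw [← hφ2]
          linarith
      _ = μ * (a / 4 * |v.1| + a / 2 * v.2) + (1 - μ) * (-(b / 2) * v.2) := by ring
      _ ≤ μ * max (a / 4 * |v.1| + a / 2 * v.2) (-(b / 2) * v.2) +
          (1 - μ) * max (a / 4 * |v.1| + a / 2 * v.2) (-(b / 2) * v.2) := add_le_add h5 h6
      _ = _ := by ring

lemma volume_codisk {a b : ℝ} (ha : 0 < a) (hb : 0 < b) (p : ℝ × ℝ) :
    volume (codisk (fun _ v => nrm a b v) p) = ENNReal.ofReal (a * (a + b) / 8) := by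
  have hab : 0 < a + b := by linarith
  set c : ℝ := a / (2 * (a + b)) with hc
  have hc0 : 0 ≤ c := by positivity
  have hset : codisk (fun _ v => nrm a b v) p =
      {φ : ℝ × ℝ | φ.2 ∈ Icc (-(b / 2)) (a / 2) ∧ |φ.1| ≤ c * (φ.2 + b / 2)} := by
    ext φ
    exact mem_codisk_iff ha hb p φ
  have hmeas : MeasurableSet
      {φ : ℝ × ℝ | φ.2 ∈ Icc (-(b / 2)) (a / 2) ∧ |φ.1| ≤ c * (φ.2 + b / 2)} := by
    apply MeasurableSet.inter
    · exact measurable_snd measurableSet_Icc
    · exact measurableSet_le (f := fun φ : ℝ × ℝ => |φ.1|)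
        (g := fun φ : ℝ × ℝ => c * (φ.2 + b / 2)) (by fun_prop) (by fun_prop)
  rw [hset, Measure.volume_eq_prod, Measure.prod_apply_symm hmeas]
  have hslice : ∀ q : ℝ, volume ((fun x : ℝ => (x, q)) ⁻¹'
      {φ : ℝ × ℝ | φ.2 ∈ Icc (-(b / 2)) (a / 2) ∧ |φ.1| ≤ c * (φ.2 + b / 2)}) =
      (Icc (-(b / 2)) (a / 2)).indicator
        (fun q => ENNReal.ofReal (2 * (c * (q + b / 2)))) q := by
    intro q
    by_cases hq : q ∈ Icc (-(b / 2)) (a / 2)
    · rw [indicator_of_mem hq]
      have : (fun x : ℝ => (x, q)) ⁻¹'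
          {φ : ℝ × ℝ | φ.2 ∈ Icc (-(b / 2)) (a / 2) ∧ |φ.1| ≤ c * (φ.2 + b / 2)} =
          Icc (-(c * (q + b / 2))) (c * (q + b / 2)) := by
        ext x
        have : x ∈ Icc (-(c * (q + b / 2))) (c * (q + b / 2)) ↔ |x| ≤ c * (q + b / 2) := by
          rw [mem_Icc, abs_le]
        rw [this]
        exact ⟨fun h => h.2, fun h => ⟨hq, h⟩⟩
      rw [this, Real.volume_Icc]
      congr 1
      ring
    · rw [indicator_of_notMem hq]
      have : (fun x : ℝ => (x, q)) ⁻¹'
          {φ : ℝ × ℝ | φ.2 ∈ Icc (-(b / 2)) (a / 2) ∧ |φ.1| ≤ c * (φ.2 + b / 2)} = ∅ := by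
        ext x
        exact ⟨fun h => (hq h.1).elim, fun h => h.elim⟩
      rw [this, measure_empty]
  simp only [hslice]
  rw [lintegral_indicator measurableSet_Icc,
    ← ofReal_integral_eq_lintegral_ofReal]
  · rw [integral_Icc_eq_integral_Ioc, ← intervalIntegral.integral_of_le (by linarith)]
    congr 1
    have : ∫ q in (-(b / 2))..(a / 2), 2 * (c * (q + b / 2)) = c * ((a + b) / 2) ^ 2 := by
      rw [intervalIntegral.integral_const_mul, intervalIntegral.integral_const_mul,
        intervalIntegral.integral_add (by simp) (by simp), integral_id,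
        intervalIntegral.integral_const, smul_eq_mul]
      ring
    rw [this, hc]
    field_simp
    ring
  · apply ContinuousOn.integrableOn_Icc
    fun_prop
  · filter_upwards [ae_restrict_mem measurableSet_Icc] with q hq
    have : 0 ≤ q + b / 2 := by linarith [hq.1]
    positivity

lemma htArea_eq {a b : ℝ} (ha : 0 < a) (hb : 0 < b) :
    htArea (fun _ v => nrm a b v) = ENNReal.ofReal (a * (a + b) / 4) := by
  unfold htArea
  simp only [volume_codisk ha hb, setLIntegral_const]
  rw [Measure.volume_eq_prod, Measure.prod_prod, Real.volume_Icc, Real.volume_Icc,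
    ← ENNReal.ofReal_mul (by norm_num), ← ENNReal.ofReal_mul (by positivity)]
  congr 1
  ring

/-- **The directed Finsler filling area inequality fails.**  For all `0 < a < b` there is a directed
Finsler semimetric on the closed Moebius band which fills its boundary circle without shortcuts,
for which the two oriented lengths of the boundary circle are `a` and `b`, and whose unnormalised
Holmes-Thompson area is `a(a+b)/4`, which is less than `ab/2`. -/
theorem result (a b : ℝ) (ha : 0 < a) (hab : a < b) :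
    ∃ F : ℝ × ℝ → ℝ × ℝ → ℝ, IsDirectedFinsler F ∧ FillsWithoutShortcuts F ∧
      pathLength F circlePlus = ENNReal.ofReal a ∧
      pathLength F circleMinus = ENNReal.ofReal b ∧
      htArea F = ENNReal.ofReal (a * (a + b) / 4) ∧
      htArea F < ENNReal.ofReal (a * b / 2) := by
  have hb : 0 < b := ha.trans hab
  have hplus : circlePlus = fun t : ℝ => ((1 : ℝ), (0 : ℝ)) + t • ((0 : ℝ), (2 : ℝ)) := by
    ext t
    · simp [circlePlus]
    · simp [circlePlus]
      ring
  have hminus : circleMinus = fun t : ℝ => ((1 : ℝ), (0 : ℝ)) + t • ((0 : ℝ), (-2 : ℝ)) := by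
    ext t
    · simp [circleMinus]
    · simp [circleMinus]
      ring
  refine ⟨fun _ v => nrm a b v, ?_, fillsWithoutShortcuts ha hb, ?_, ?_, htArea_eq ha hb, ?_⟩
  · exact {
      continuousOn := ((nrm_continuous a b).comp continuous_snd).continuousOn
      nonneg := fun _ _ v => nrm_nonneg ha.le hb.le v
      homogeneous := fun _ _ v c hc => nrm_smul v hc
      convex := fun _ _ => nrm_convex ha.le
      invariant := fun _ _ v => by simp [nrm] }
  · rw [hplus, pathLength_segment]
    congr 1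
    simp only [nrm, abs_zero, mul_zero, zero_add]
    rw [max_eq_left (by nlinarith)]
    ring
  · rw [hminus, pathLength_segment]
    congr 1
    simp only [nrm, abs_zero, mul_zero, zero_add]
    rw [max_eq_right (by nlinarith)]
    ring
  · rw [htArea_eq ha hb]
    rw [ENNReal.ofReal_lt_ofReal_iff (by positivity)]
    nlinarith

end

end Pool.Agent.Results.MP_1fb3ec_gt.MobiusBandCounterexample
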